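import Mathlib

set_option autoImplicit false

namespace Pool.Agent.TH255.CR

open Set MeasureTheory

section AF0

variable {N : ℕ → ℕ}

/-- the first `n` coordinates -/
def pre (n : ℕ) (x : ∀ k, Fin (N k)) : ∀ i : Fin n, Fin (N i) := fun i => x i

/-- replace the first `n` coordinates -/
def repl (n : ℕ) (a : ∀ i : Fin n, Fin (N i)) (x : ∀ k, Fin (N k)) : ∀ k, Fin (N k) :=
  fun i => if h : i < n then a ⟨i, h⟩ else x i

theorem pre_repl (n : ℕ) (a : ∀ i : Fin n, Fin (N i)) (x : ∀ k, Fin (N k)) :
    pre n (repl n a x) = a := by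
  funext i
  simp [pre, repl]

theorem repl_repl (n : ℕ) (a b : ∀ i : Fin n, Fin (N i)) (x : ∀ k, Fin (N k)) :
    repl n a (repl n b x) = repl n a x := by
  funext i
  by_cases h : i < n <;> simp [repl, h]

theorem repl_pre (n : ℕ) (x : ∀ k, Fin (N k)) : repl n (pre n x) x = x := by
  funext i
  by_cases h : i < n <;> simp [repl, pre, h]

open Classical in
/-- swap two prefixes -/
noncomputable def sw (n : ℕ) (a b : ∀ i : Fin n, Fin (N i)) (x : ∀ k, Fin (N k)) :
    ∀ k, Fin (N k) :=
  if pre n x = a then repl n b x else if pre n x = b then repl n a x else x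

theorem sw_sw (n : ℕ) (a b : ∀ i : Fin n, Fin (N i)) (x : ∀ k, Fin (N k)) :
    sw n a b (sw n a b x) = x := by
  classical
  by_cases h1 : pre n x = a
  · have e1 : sw n a b x = repl n b x := by simp [sw, h1]
    rw [e1]
    by_cases hab : b = a
    · subst hab
      simp only [sw, pre_repl, if_true, repl_repl]
      rw [← h1, repl_pre]
    · simp only [sw, pre_repl, hab, if_false, if_true, repl_repl]
      rw [← h1, repl_pre]
  · by_cases h2 : pre n x = b
    · have e1 : sw n a b x = repl n a x := by
        simp only [sw, h2, if_true]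
        rw [if_neg]
        intro h; exact h1 (h2.trans h)
      rw [e1]
      simp only [sw, pre_repl, if_true, repl_repl]
      rw [← h2, repl_pre]
    · have e1 : sw n a b x = x := by simp [sw, h1, h2]
      rw [e1, e1]

theorem continuous_pre (n : ℕ) : Continuous (pre (N := N) n) :=
  continuous_pi fun _ => continuous_apply _

theorem continuous_sw (n : ℕ) (a b : ∀ i : Fin n, Fin (N i)) : Continuous (sw n a b) := by
  classical
  refine continuous_pi fun i => ?_
  let G : (∀ i : Fin n, Fin (N i)) × Fin (N i) → Fin (N i) := fun p =>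
    if p.1 = a then (if h : i < n then b ⟨i, h⟩ else p.2)
    else if p.1 = b then (if h : i < n then a ⟨i, h⟩ else p.2) else p.2
  have hG : Continuous G := continuous_of_discreteTopology
  have e : (fun x => sw n a b x i) = fun x => G (pre n x, x i) := by
    funext x
    by_cases h1 : pre n x = a
    · simp [sw, G, h1, repl]
    · by_cases h2 : pre n x = b
      · have h3 : ¬ b = a := fun h => h1 (h2.trans h)
        simp [sw, G, h2, h3, repl]
      · simp [sw, G, h1, h2]
  rw [e]
  exact hG.comp ((continuous_pre n).prodMk (continuous_apply i))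

/-- the homeomorphism swapping two prefixes -/
noncomputable def swHomeo (n : ℕ) (a b : ∀ i : Fin n, Fin (N i)) :
    (∀ k, Fin (N k)) ≃ₜ (∀ k, Fin (N k)) where
  toFun := sw n a b
  invFun := sw n a b
  left_inv := sw_sw n a b
  right_inv := sw_sw n a b
  continuous_toFun := continuous_sw n a b
  continuous_invFun := continuous_sw n a b

theorem sw_tail (n : ℕ) (a b : ∀ i : Fin n, Fin (N i)) (x : ∀ k, Fin (N k)) (i : ℕ)
    (hi : n ≤ i) : x i = sw n a b x i := by
  classical
  have h : ¬ i < n := by omega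
  by_cases h1 : pre n x = a
  · simp [sw, h1, repl, h]
  · by_cases h2 : pre n x = b
    · have h3 : ¬ b = a := fun h => h1 (h2.trans h)
      simp [sw, h2, h3, repl, h]
    · simp [sw, h1, h2]

end AF0

/-- JOB AF0: the AF relation (equal first coordinate, eventually equal second coordinate) is the
union of the graphs of countably many homeomorphisms. -/
theorem af_gen {Z : Type} [TopologicalSpace Z] (N : ℕ → ℕ) :
    ∃ V : ℕ → ((Z × ∀ k, Fin (N k)) ≃ₜ (Z × ∀ k, Fin (N k))), ∀ p q,
      (p.1 = q.1 ∧ ∃ k, ∀ i, k ≤ i → p.2 i = q.2 i) ↔ ∃ k, V k p = q := by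
  classical
  have hne : Nonempty (Σ n, (∀ i : Fin n, Fin (N i)) × (∀ i : Fin n, Fin (N i))) :=
    ⟨⟨0, (fun i => i.elim0), (fun i => i.elim0)⟩⟩
  obtain ⟨e, he⟩ := exists_surjective_nat
    (Σ n, (∀ i : Fin n, Fin (N i)) × (∀ i : Fin n, Fin (N i)))
  refine ⟨fun k => (Homeomorph.refl Z).prodCongr (swHomeo (e k).1 (e k).2.1 (e k).2.2), ?_⟩
  intro p q
  constructor
  · rintro ⟨h1, n, h2⟩
    obtain ⟨k, hk⟩ := he ⟨n, pre n p.2, pre n q.2⟩
    refine ⟨k, ?_⟩
    beta_reduce
    rw [hk]
    refine Prod.ext h1 ?_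
    change sw n (pre n p.2) (pre n q.2) p.2 = q.2
    simp only [sw, if_true]
    funext i
    by_cases h : i < n
    · simp [repl, pre, h]
    · simp only [repl, h, dif_neg, not_false_iff]
      exact h2 i (by omega)
  · rintro ⟨k, rfl⟩
    exact ⟨rfl, (e k).1, fun i hi => sw_tail _ _ _ _ i hi⟩

end Pool.Agent.TH255.CR
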