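import Mathlib

set_option autoImplicit false

namespace Pool.Agent.TH255.CR.Cant

open Set

/-- tail equivalence -/
def R (x y : ℕ → Bool) : Prop := ∃ m n, ∀ i, x (m + i) = y (n + i)

theorem R.refl (x : ℕ → Bool) : R x x := ⟨0, 0, fun _ => rfl⟩

theorem R.symm {x y : ℕ → Bool} (h : R x y) : R y x := by
  obtain ⟨m, n, h⟩ := h
  exact ⟨n, m, fun i => (h i).symm⟩

theorem R.trans {x y z : ℕ → Bool} (h : R x y) (h' : R y z) : R x z := by
  obtain ⟨m, n, h⟩ := h
  obtain ⟨k, l, h'⟩ := h'
  refine ⟨m + k, l + n, fun i => ?_⟩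
  have h1 := h (k + i)
  have h2 := h' (n + i)
  rw [show m + k + i = m + (k + i) by ring, h1, show n + (k + i) = k + (n + i) by ring, h2,
    show l + (n + i) = l + n + i by ring]

/-- prepend a letter -/
def cons (b : Bool) (x : ℕ → Bool) : ℕ → Bool := fun n => Nat.casesOn n b x

/-- the shift -/
def tl (x : ℕ → Bool) : ℕ → Bool := fun n => x (n + 1)

theorem cons_zero (b : Bool) (x : ℕ → Bool) : cons b x 0 = b := rfl

theorem cons_succ (b : Bool) (x : ℕ → Bool) (n : ℕ) : cons b x (n + 1) = x n := rfl

theorem tl_cons (b : Bool) (x : ℕ → Bool) : tl (cons b x) = x := rfl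

theorem cons_tl (x : ℕ → Bool) : cons (x 0) (tl x) = x := by
  funext n
  cases n <;> rfl

theorem continuous_cons (b : Bool) : Continuous (cons b) := by
  refine continuous_pi fun n => ?_
  cases n with
  | zero => exact continuous_const
  | succ n => exact continuous_apply n

theorem continuous_tl : Continuous tl := continuous_pi fun n => continuous_apply (n + 1)

theorem cons_inj {b c : Bool} {x y : ℕ → Bool} (h : cons b x = cons c y) : b = c ∧ x = y :=
  ⟨congrFun h 0, by rw [← tl_cons b x, h, tl_cons]⟩

theorem R_cons (b : Bool) (x : ℕ → Bool) : R x (cons b x) :=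
  ⟨0, 1, fun i => by rw [Nat.zero_add, Nat.add_comm 1 i, cons_succ]⟩

theorem R_tl (x : ℕ → Bool) : R x (tl x) := by
  have := (R_cons (x 0) (tl x)).symm
  rwa [cons_tl] at this

theorem bool_ne (a b : Bool) (h : ¬ a = b) : a = !b := by
  cases a <;> cases b <;> simp_all

/-- sets that are images of the whole space under an embedding inside tail equivalence -/
def Good (P : Set (ℕ → Bool)) : Prop :=
  ∃ f : (ℕ → Bool) → (ℕ → Bool), Continuous f ∧ Function.Injective f ∧ range f = P ∧ ∀ x, R x (f x)

theorem good_of_dep (n : ℕ) : ∀ P : Set (ℕ → Bool),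
    (∀ x y : ℕ → Bool, (∀ i, i < n → x i = y i) → x ∈ P → y ∈ P) → P = ∅ ∨ Good P := by
  induction n with
  | zero =>
    intro P hP
    rcases P.eq_empty_or_nonempty with h | ⟨x, hx⟩
    · exact Or.inl h
    · right
      refine ⟨id, continuous_id, Function.injective_id, ?_, fun x => R.refl x⟩
      rw [range_id]
      refine (eq_univ_of_forall fun y => hP x y (fun i hi => absurd hi (Nat.not_lt_zero i)) hx).symm
  | succ n ih =>
    intro P hP
    have hb : ∀ b : Bool, {x | cons b x ∈ P} = ∅ ∨ Good {x | cons b x ∈ P} := by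
      intro b
      refine ih _ fun x y hxy hx => ?_
      refine hP (cons b x) (cons b y) ?_ hx
      intro i hi
      cases i with
      | zero => rfl
      | succ i => exact hxy i (by omega)
    have hmem : ∀ x, x ∈ P ↔ tl x ∈ {y | cons (x 0) y ∈ P} := by
      intro x
      rw [mem_ofPred_eq, cons_tl]
    have one : ∀ b : Bool, {x | cons (!b) x ∈ P} = ∅ → Good {x | cons b x ∈ P} → Good P := by
      rintro b hempty ⟨f, hf, hfi, hfr, hfR⟩
      refine ⟨cons b ∘ f, (continuous_cons b).comp hf, ?_, ?_, ?_⟩
      · intro x y hxy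
        exact hfi (cons_inj hxy).2
      · ext x
        constructor
        · rintro ⟨y, rfl⟩
          have : f y ∈ {x | cons b x ∈ P} := by rw [← hfr]; exact mem_range_self y
          exact this
        · intro hx
          have h0 : x 0 = b := by
            by_contra hne
            have h1 : x 0 = !b := bool_ne _ _ hne
            have h2 := (hmem x).1 hx
            rw [h1, hempty] at h2
            exact h2
          have h2 := (hmem x).1 hx
          rw [h0, ← hfr] at h2
          obtain ⟨y, hy⟩ := h2
          refine ⟨y, ?_⟩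
          change cons b (f y) = x
          rw [hy, ← h0, cons_tl]
      · intro x
        exact (hfR x).trans (R_cons b _)
    rcases hb false with h0 | h0 <;> rcases hb true with h1 | h1
    · left
      ext x
      simp only [mem_empty_iff_false, iff_false]
      intro hx
      have h2 := (hmem x).1 hx
      cases hx0 : x 0
      · rw [hx0, h0] at h2; exact h2
      · rw [hx0, h1] at h2; exact h2
    · right; exact one true h0 h1
    · right; exact one false h1 h0
    · right
      obtain ⟨f0, hf0, hfi0, hfr0, hfR0⟩ := h0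
      obtain ⟨f1, hf1, hfi1, hfr1, hfR1⟩ := h1
      refine ⟨fun x => if x 0 = true then cons true (f1 (tl x)) else cons false (f0 (tl x)),
        ?_, ?_, ?_, ?_⟩
      · refine Continuous.if ?_ ((continuous_cons true).comp (hf1.comp continuous_tl))
          ((continuous_cons false).comp (hf0.comp continuous_tl))
        intro a ha
        exfalso
        have hcl : IsClopen {x : ℕ → Bool | x 0 = true} := by
          have : {x : ℕ → Bool | x 0 = true} = (fun x : ℕ → Bool => x 0) ⁻¹' {true} := rfl
          rw [this]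
          exact (isClopen_discrete _).preimage (continuous_apply 0)
        rw [hcl.frontier_eq] at ha
        exact ha
      · intro x y hxy
        dsimp only at hxy
        by_cases hx : x 0 = true <;> by_cases hy : y 0 = true
        · rw [if_pos hx, if_pos hy] at hxy
          have := hfi1 (cons_inj hxy).2
          rw [← cons_tl x, ← cons_tl y, hx, hy, this]
        · rw [if_pos hx, if_neg hy] at hxy
          exact absurd (cons_inj hxy).1 (by decide)
        · rw [if_neg hx, if_pos hy] at hxy
          exact absurd (cons_inj hxy).1 (by decide)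
        · rw [if_neg hx, if_neg hy] at hxy
          have := hfi0 (cons_inj hxy).2
          have hx' : x 0 = false := by simpa using hx
          have hy' : y 0 = false := by simpa using hy
          rw [← cons_tl x, ← cons_tl y, hx', hy', this]
      · ext x
        constructor
        · rintro ⟨y, rfl⟩
          dsimp only
          by_cases hy : y 0 = true
          · rw [if_pos hy]
            have : f1 (tl y) ∈ {x | cons true x ∈ P} := by rw [← hfr1]; exact mem_range_self _
            exact this
          · rw [if_neg hy]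
            have : f0 (tl y) ∈ {x | cons false x ∈ P} := by rw [← hfr0]; exact mem_range_self _
            exact this
        · intro hx
          have h2 := (hmem x).1 hx
          cases hx0 : x 0
          · rw [hx0, ← hfr0] at h2
            obtain ⟨y, hy⟩ := h2
            refine ⟨cons false y, ?_⟩
            dsimp only
            rw [cons_zero, if_neg (by decide), tl_cons, hy, ← hx0, cons_tl]
          · rw [hx0, ← hfr1] at h2
            obtain ⟨y, hy⟩ := h2
            refine ⟨cons true y, ?_⟩
            dsimp only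
            rw [cons_zero, if_pos rfl, tl_cons, hy, ← hx0, cons_tl]
      · intro x
        dsimp only
        by_cases hx : x 0 = true
        · rw [if_pos hx]
          exact ((R_tl x).trans (hfR1 _)).trans (R_cons _ _)
        · rw [if_neg hx]
          exact ((R_tl x).trans (hfR0 _)).trans (R_cons _ _)

theorem exists_dep (P : Set (ℕ → Bool)) (hP : IsClopen P) :
    ∃ n, ∀ x y : ℕ → Bool, (∀ i, i < n → x i = y i) → x ∈ P → y ∈ P := by
  classical
  -- cylinders
  let C : (ℕ → Bool) → ℕ → Set (ℕ → Bool) := fun x n => {y | ∀ i, i < n → y i = x i}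
  have hCo : ∀ x n, IsOpen (C x n) := by
    intro x n
    have : C x n = ⋂ i ∈ Finset.range n, (fun y : ℕ → Bool => y i) ⁻¹' {x i} := by
      ext y; simp [C]
    rw [this]
    exact isOpen_biInter_finset fun i _ => (isOpen_discrete _).preimage (continuous_apply i)
  have hnb : ∀ (O : Set (ℕ → Bool)), IsOpen O → ∀ x ∈ O, ∃ n, C x n ⊆ O := by
    intro O hO x hx
    rw [isOpen_pi_iff] at hO
    obtain ⟨I, u, hu, hsub⟩ := hO x hx
    refine ⟨I.sup id + 1, fun y hy => hsub ?_⟩
    intro i hi
    have h1 : i ≤ I.sup id := Finset.le_sup (f := id) hi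
    rw [hy i (by omega)]
    exact (hu i hi).2
  have h1 : ∀ x, ∃ n, C x n ⊆ P ∨ C x n ⊆ Pᶜ := by
    intro x
    by_cases hx : x ∈ P
    · obtain ⟨n, hn⟩ := hnb P hP.isOpen x hx
      exact ⟨n, Or.inl hn⟩
    · obtain ⟨n, hn⟩ := hnb Pᶜ hP.compl.isOpen x hx
      exact ⟨n, Or.inr hn⟩
  choose n hn using h1
  obtain ⟨t, ht⟩ := isCompact_univ.elim_finite_subcover (fun x => C x (n x))
    (fun x => hCo x (n x)) (fun x _ => mem_iUnion.2 ⟨x, fun _ _ => rfl⟩)
  refine ⟨t.sup n, fun x y hxy hx => ?_⟩
  obtain ⟨z, hz⟩ := mem_iUnion.1 (ht (mem_univ x))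
  obtain ⟨hzt, hz⟩ := mem_iUnion.1 hz
  have hy : y ∈ C z (n z) := by
    intro i hi
    rw [← hxy i (lt_of_lt_of_le hi (Finset.le_sup hzt))]
    exact hz i hi
  rcases hn z with h | h
  · exact h hy
  · exact absurd hx (h hz)

theorem good_of_clopen (P : Set (ℕ → Bool)) (hP : IsClopen P) (hP0 : P.Nonempty) : Good P := by
  obtain ⟨n, hn⟩ := exists_dep P hP
  rcases good_of_dep n P hn with h | h
  · exact absurd h hP0.ne_empty
  · exact h

/-- glue two embeddings with complementary ranges -/
theorem glue (P : Set (ℕ → Bool)) (f g : (ℕ → Bool) → (ℕ → Bool)) (hf : Continuous f)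
    (hg : Continuous g) (hfi : Function.Injective f) (hgi : Function.Injective g)
    (hfr : range f = P) (hgr : range g = Pᶜ) :
    ∃ G : ((ℕ → Bool) ⊕ (ℕ → Bool)) ≃ₜ (ℕ → Bool), (∀ x, G (Sum.inl x) = f x) ∧
      ∀ x, G (Sum.inr x) = g x := by
  have hc : Continuous (Sum.elim f g) := hf.sumElim hg
  have hd : ∀ x y, f x ≠ g y := by
    intro x y h
    have h1 : f x ∈ P := hfr ▸ mem_range_self x
    have h2 : g y ∈ Pᶜ := hgr ▸ mem_range_self y
    rw [← h] at h2
    exact h2 h1
  have hb : Function.Bijective (Sum.elim f g) := by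
    constructor
    · exact hfi.sumElim hgi hd
    · intro y
      by_cases hy : y ∈ P
      · rw [← hfr] at hy
        obtain ⟨x, hx⟩ := hy
        exact ⟨Sum.inl x, hx⟩
      · have hy' : y ∈ Pᶜ := hy
        rw [← hgr] at hy'
        obtain ⟨x, hx⟩ := hy'
        exact ⟨Sum.inr x, hx⟩
  refine ⟨Continuous.homeoOfEquivCompactToT2 (f := Equiv.ofBijective _ hb) hc, ?_, ?_⟩
  · intro x; rfl
  · intro x; rfl

theorem exists_T (P Q : Set (ℕ → Bool)) (f g : (ℕ → Bool) → (ℕ → Bool)) (hf : Continuous f)
    (hg : Continuous g) (hfi : Function.Injective f) (hgi : Function.Injective g)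
    (hfr : range f = P) (hgr : range g = Q) (hfR : ∀ x, R x (f x)) (hgR : ∀ x, R x (g x))
    (hPc : Good Pᶜ) (hQc : Good Qᶜ) :
    ∃ T : (ℕ → Bool) ≃ₜ (ℕ → Bool), (∀ x, R x (T x)) ∧ ∀ x, T (f x) = g x := by
  obtain ⟨f', hf', hfi', hfr', hfR'⟩ := hPc
  obtain ⟨g', hg', hgi', hgr', hgR'⟩ := hQc
  obtain ⟨F, hF1, hF2⟩ := glue P f f' hf hf' hfi hfi' hfr hfr'
  obtain ⟨G, hG1, hG2⟩ := glue Q g g' hg hg' hgi hgi' hgr hgr'
  refine ⟨F.symm.trans G, ?_, ?_⟩
  · intro x
    obtain ⟨s, rfl⟩ := F.surjective x
    rw [Homeomorph.trans_apply, Homeomorph.symm_apply_apply]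
    cases s with
    | inl y => rw [hF1, hG1]; exact (hfR y).symm.trans (hgR y)
    | inr y => rw [hF2, hG2]; exact (hfR' y).symm.trans (hgR' y)
  · intro x
    rw [← hF1, Homeomorph.trans_apply, Homeomorph.symm_apply_apply, hG1]

/-- prepend a word -/
def app (u : List Bool) (x : ℕ → Bool) : ℕ → Bool := u.foldr cons x

theorem continuous_app (u : List Bool) : Continuous (app u) := by
  induction u with
  | nil => exact continuous_id
  | cons b u ih => exact (continuous_cons b).comp ih

theorem injective_app (u : List Bool) : Function.Injective (app u) := by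
  induction u with
  | nil => exact Function.injective_id
  | cons b u ih =>
    intro x y h
    exact ih (cons_inj h).2

theorem R_app (u : List Bool) (x : ℕ → Bool) : R x (app u x) := by
  induction u with
  | nil => exact R.refl x
  | cons b u ih => exact ih.trans (R_cons b _)

theorem isOpen_cons_image (b : Bool) (S : Set (ℕ → Bool)) (hS : IsOpen S) :
    IsOpen (cons b '' S) := by
  have : cons b '' S = (tl ⁻¹' S) ∩ (fun x : ℕ → Bool => x 0) ⁻¹' {b} := by
    ext x
    constructor
    · rintro ⟨y, hy, rfl⟩
      exact ⟨hy, rfl⟩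
    · rintro ⟨h1, h2⟩
      refine ⟨tl x, h1, ?_⟩
      have h2' : x 0 = b := h2
      rw [← h2', cons_tl]
  rw [this]
  exact (hS.preimage continuous_tl).inter ((isOpen_discrete _).preimage (continuous_apply 0))

theorem isClopen_range_app (u : List Bool) : IsClopen (range (app u)) := by
  refine ⟨(isCompact_range (continuous_app u)).isClosed, ?_⟩
  induction u with
  | nil =>
    have : range (app []) = univ := range_id
    rw [this]; exact isOpen_univ
  | cons b u ih =>
    have : range (app (b :: u)) = cons b '' range (app u) := by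
      rw [← range_comp]; rfl
    rw [this]
    exact isOpen_cons_image b _ ih

theorem range_app_cons_ne (b : Bool) (u : List Bool) : (range (app (b :: u)))ᶜ.Nonempty := by
  refine ⟨fun _ => !b, ?_⟩
  rintro ⟨y, hy⟩
  have h0 : app (b :: u) y 0 = !b := by rw [hy]
  have h1 : app (b :: u) y 0 = b := rfl
  rw [h1] at h0
  cases b <;> simp at h0

theorem app_word (m : ℕ) : ∀ x : ℕ → Bool,
    ∃ u : List Bool, u.length = m ∧ app u (fun i => x (m + i)) = x := by
  induction m with
  | zero => intro x; exact ⟨[], rfl, by funext i; simp [app]⟩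
  | succ m ih =>
    intro x
    obtain ⟨u, hu, h⟩ := ih (tl x)
    refine ⟨x 0 :: u, by simp [hu], ?_⟩
    have e : (fun i => tl x (m + i)) = fun i => x (m + 1 + i) := by
      funext i
      simp only [tl]
      congr 1
      ring
    rw [e] at h
    change cons (x 0) (app u _) = x
    rw [h, cons_tl]

/-- JOB CANT1: any two nonempty proper clopen subsets of the Cantor space correspond under a
homeomorphism moving points inside their tail equivalence classes. -/
theorem cantor_clopen (P Q : Set (ℕ → Bool)) (hP : IsClopen P) (hQ : IsClopen Q)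
    (hP0 : P.Nonempty) (hQ0 : Q.Nonempty) (hP1 : P ≠ univ) (hQ1 : Q ≠ univ) :
    ∃ T : (ℕ → Bool) ≃ₜ (ℕ → Bool), (∀ x, ∃ m n, ∀ i, x (m + i) = T x (n + i)) ∧ T '' P = Q := by
  obtain ⟨f, hf, hfi, hfr, hfR⟩ := good_of_clopen P hP hP0
  obtain ⟨g, hg, hgi, hgr, hgR⟩ := good_of_clopen Q hQ hQ0
  obtain ⟨T, hT, hTf⟩ := exists_T P Q f g hf hg hfi hgi hfr hgr hfR hgR
    (good_of_clopen _ hP.compl (nonempty_compl.2 hP1))
    (good_of_clopen _ hQ.compl (nonempty_compl.2 hQ1))
  refine ⟨T, hT, ?_⟩
  rw [← hfr, ← range_comp, ← hgr]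
  congr 1
  funext x
  exact hTf x

/-- JOB CANT2: tail equivalence is the union of the graphs of countably many homeomorphisms. -/
theorem cantor_gen : ∃ V : ℕ → ((ℕ → Bool) ≃ₜ (ℕ → Bool)), ∀ x y : ℕ → Bool,
    (∃ m n, ∀ i, x (m + i) = y (n + i)) ↔ ∃ k, V k x = y := by
  have key : ∀ q : (Bool × List Bool) × (Bool × List Bool),
      ∃ T : (ℕ → Bool) ≃ₜ (ℕ → Bool), (∀ x, R x (T x)) ∧
        ∀ x, T (app (q.1.1 :: q.1.2) x) = app (q.2.1 :: q.2.2) x := by
    rintro ⟨⟨b, u⟩, ⟨c, v⟩⟩
    exact exists_T _ _ _ _ (continuous_app (b :: u)) (continuous_app (c :: v))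
      (injective_app _) (injective_app _) rfl rfl (R_app _) (R_app _)
      (good_of_clopen _ (isClopen_range_app _).compl (range_app_cons_ne b u))
      (good_of_clopen _ (isClopen_range_app _).compl (range_app_cons_ne c v))
  choose T hT1 hT2 using key
  obtain ⟨e, he⟩ := exists_surjective_nat ((Bool × List Bool) × (Bool × List Bool))
  refine ⟨fun k => T (e k), fun x y => ⟨?_, ?_⟩⟩
  · rintro ⟨m, n, h⟩
    obtain ⟨u, hu, hux⟩ := app_word (m + 1) x
    obtain ⟨v, hv, hvy⟩ := app_word (n + 1) y
    cases u with
    | nil => simp at hu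
    | cons b u =>
      cases v with
      | nil => simp at hv
      | cons c v =>
        obtain ⟨k, hk⟩ := he ((b, u), (c, v))
        refine ⟨k, ?_⟩
        beta_reduce
        rw [hk, ← hux, hT2]
        change app (c :: v) _ = y
        have e2 : (fun i => x (m + 1 + i)) = fun i => y (n + 1 + i) := by
          funext i
          have := h (1 + i)
          rw [show m + 1 + i = m + (1 + i) by ring, this, show n + (1 + i) = n + 1 + i by ring]
        rw [e2, hvy]
  · rintro ⟨k, rfl⟩
    exact hT1 (e k) x

end Pool.Agent.TH255.CR.Cant
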