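import Mathlib

set_option autoImplicit false

namespace Pool.Agent.TH255.CR

open Set MeasureTheory

/-- JOB CB: class preserving Cantor-Bernstein. -/
theorem cantor_bernstein {X Y : Type} [MeasurableSpace X] [StandardBorelSpace X]
    [MeasurableSpace Y] [StandardBorelSpace Y] (E : X → X → Prop) (F : Y → Y → Prop)
    (hF : Equivalence F) (f : X → Y) (g : Y → X) (hf : Measurable f) (hg : Measurable g)
    (hfi : Function.Injective f) (hgi : Function.Injective g)
    (hEF : ∀ x x', E x x' ↔ F (f x) (f x')) (hgf : ∀ y, F (f (g y)) y) :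
    ∃ h : X ≃ᵐ Y, (∀ x, F (f x) (h x)) ∧ ∀ x x', E x x' ↔ F (h x) (h x') := by
  classical
  have hfm : MeasurableEmbedding f := hf.measurableEmbedding hfi
  have hgm : MeasurableEmbedding g := hg.measurableEmbedding hgi
  let A : ℕ → Set X := fun n => Nat.rec (range g)ᶜ (fun _ B => g '' (f '' B)) n
  have hA0 : A 0 = (range g)ᶜ := rfl
  have hAs : ∀ n, A (n + 1) = g '' (f '' A n) := fun n => rfl
  have hAm : ∀ n, MeasurableSet (A n) := by
    intro n
    induction n with
    | zero => rw [hA0]; exact hgm.measurableSet_range.compl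
    | succ n ih => rw [hAs]; exact hgm.measurableSet_image.2 (hfm.measurableSet_image.2 ih)
  let T : Set X := ⋃ n, A n
  have hTm : MeasurableSet T := MeasurableSet.iUnion hAm
  have hnT : ∀ x, x ∉ T → ∃ y, g y = x := by
    intro x hx
    by_contra hc
    apply hx
    refine mem_iUnion.2 ⟨0, ?_⟩
    rw [hA0]
    exact fun ⟨y, hy⟩ => hc ⟨y, hy⟩
  -- the inverse of g off T
  choose gi hgi' using hnT
  let h : X → Y := fun x => if hx : x ∈ T then f x else gi x hx
  have hT1 : ∀ x, x ∈ T → h x = f x := fun x hx => by simp [h, hx]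
  have hT2 : ∀ x, x ∉ T → g (h x) = x := fun x hx => by simp [h, hx, hgi' x hx]
  have hgT : ∀ x, x ∈ T → g (f x) ∈ T := by
    intro x hx
    obtain ⟨n, hn⟩ := mem_iUnion.1 hx
    exact mem_iUnion.2 ⟨n + 1, by rw [hAs]; exact ⟨f x, ⟨x, hn, rfl⟩, rfl⟩⟩
  have hTg : ∀ y, g y ∈ T → ∃ x ∈ T, f x = y := by
    intro y hy
    obtain ⟨n, hn⟩ := mem_iUnion.1 hy
    cases n with
    | zero =>
      rw [hA0] at hn
      exact absurd (mem_range_self y) hn
    | succ n =>
      rw [hAs] at hn
      obtain ⟨y', ⟨x, hx, rfl⟩, h2⟩ := hn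
      exact ⟨x, mem_iUnion.2 ⟨n, hx⟩, hgi h2⟩
  have hinj : Function.Injective h := by
    intro a b hab
    by_cases ha : a ∈ T <;> by_cases hb : b ∈ T
    · rw [hT1 a ha, hT1 b hb] at hab; exact hfi hab
    · exfalso
      apply hb
      rw [← hT2 b hb, ← hab, hT1 a ha]
      exact hgT a ha
    · exfalso
      apply ha
      rw [← hT2 a ha, hab, hT1 b hb]
      exact hgT b hb
    · rw [← hT2 a ha, ← hT2 b hb, hab]
  have hsurj : Function.Surjective h := by
    intro y
    by_cases hy : g y ∈ T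
    · obtain ⟨x, hx, hxy⟩ := hTg y hy
      exact ⟨x, by rw [hT1 x hx, hxy]⟩
    · exact ⟨g y, hgi (hT2 _ hy)⟩
  have hmeas : Measurable h := by
    intro V hV
    have e : h ⁻¹' V = (T ∩ f ⁻¹' V) ∪ (Tᶜ ∩ g '' V) := by
      ext x
      by_cases hx : x ∈ T
      · simp [hx, hT1 x hx]
      · simp only [mem_preimage, mem_union, mem_inter_iff, hx, false_and, mem_compl_iff,
          not_false_iff, true_and, false_or]
        constructor
        · intro h1; exact ⟨h x, h1, hT2 x hx⟩
        · rintro ⟨y, hy, hyx⟩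
          have : h x = y := hgi (by rw [hT2 x hx, hyx])
          rw [this]; exact hy
    rw [e]
    exact (hTm.inter (hf hV)).union (hTm.compl.inter (hgm.measurableSet_image.2 hV))
  have hFh : ∀ x, F (f x) (h x) := by
    intro x
    by_cases hx : x ∈ T
    · rw [hT1 x hx]; exact hF.refl _
    · have := hgf (h x)
      rwa [hT2 x hx] at this
  have hinv : Measurable (Equiv.ofBijective h ⟨hinj, hsurj⟩).symm := by
    intro V hV
    have e : (Equiv.ofBijective h ⟨hinj, hsurj⟩).symm ⁻¹' V = h '' V := by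
      rw [← Equiv.image_eq_preimage_symm]; rfl
    rw [e]
    exact (hmeas.measurableEmbedding hinj).measurableSet_image.2 hV
  refine ⟨⟨Equiv.ofBijective h ⟨hinj, hsurj⟩, hmeas, hinv⟩, ?_, ?_⟩
  · intro x; exact hFh x
  · intro x x'
    rw [hEF]
    constructor
    · intro h1
      exact hF.trans (hF.symm (hFh x)) (hF.trans h1 (hFh x'))
    · intro h1
      exact hF.trans (hFh x) (hF.trans h1 (hF.symm (hFh x')))

end Pool.Agent.TH255.CR
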